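import Pool.Agent.MWI.StmtsT

/-! MWI row EXF (helper4). -/

set_option autoImplicit false

namespace Pool.Agent.MWI.H4

open Pool.Agent.Helper14_MV Pool.Agent.Helper2_MV Pool.Agent.MWF

/-- value at the head -/
def hd (a : ℕ → ℕ) : List ℕ → ℕ
  | [] => 0
  | j :: _ => a j

/-- the substitution for the left places -/
def gL (a b : ℕ → ℕ) : List ℕ → ℕ → List ℕ
  | [], c => [c]
  | i :: l, c => if c = 3 * i + 1 then List.replicate (b i) 0 ++ c :: List.replicate (hd a l) 0
      else gL a b l c

/-- the substitution for the right places -/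
def gR (a b : ℕ → ℕ) : ℕ → List ℕ → ℕ → List ℕ
  | _, [], c => [c]
  | u, i :: l, c => if c = 3 * i + 1 then List.replicate u 0 ++ c :: List.replicate (a i) 0
      else gR a b (b i) l c

/-- the end of the right places -/
def qR (b : ℕ → ℕ) : ℕ → List ℕ → ℕ
  | u, [] => u
  | _, i :: l => qR b (b i) l

theorem gL_ne (a b : ℕ → ℕ) (l : List ℕ) (c : ℕ) (h : c % 3 ≠ 1) : gL a b l c = [c] := by
  induction l with
  | nil => rfl
  | cons i l ih =>
    unfold gL
    rw [if_neg (by omega), ih]

theorem gR_ne (a b : ℕ → ℕ) (l : List ℕ) (c : ℕ) (h : c % 3 ≠ 1) : ∀ u, gR a b u l c = [c] := by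
  induction l with
  | nil => exact fun _ => rfl
  | cons i l ih =>
    intro u
    unfold gR
    rw [if_neg (by omega), ih]

theorem fm_rep {f : ℕ → List ℕ} (h : f 0 = [0]) (k : ℕ) :
    (List.replicate k 0).flatMap f = List.replicate k 0 := by
  induction k with
  | zero => rfl
  | succ k ih =>
    rw [List.replicate_succ, List.flatMap_cons, ih, h]
    rfl

theorem fm_id {f : ℕ → List ℕ} (h : ∀ c, c % 3 ≠ 1 → f c = [c]) (M : List ℕ)
    (hM : ∀ c ∈ M, c % 3 ≠ 1) : M.flatMap f = M := by
  induction M with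
  | nil => rfl
  | cons c M ih =>
    rw [List.flatMap_cons, ih fun d hd => hM d (List.mem_cons_of_mem _ hd),
      h c (hM c List.mem_cons_self)]
    rfl

theorem rep_mul (j x : ℕ) : List.replicate ((j + 1) * x) (0 : ℕ) =
    List.replicate x 0 ++ List.replicate (j * x) 0 := by
  rw [← List.replicate_add]
  congr 1
  ring

theorem rep_mul' (j x : ℕ) : List.replicate ((j + 1) * x) (0 : ℕ) =
    List.replicate (j * x) 0 ++ List.replicate x 0 := by
  rw [← List.replicate_add]
  congr 1
  ring

theorem left (a b : ℕ → ℕ) (f : ℕ → List ℕ) (hf : ∀ c, c % 3 ≠ 1 → f c = [c]) (j : ℕ) :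
    ∀ P : List ℕ, P.Nodup → (∀ i ∈ P, f (3 * i + 1) = gL a b P (3 * i + 1)) →
      List.replicate (hd a P) 0 ++ (pA (fun i => j * a i) (fun i => j * b i) P).flatMap f =
        pA (fun i => (j + 1) * a i) (fun i => (j + 1) * b i) P := by
  have h0 : f 0 = [0] := hf 0 (by norm_num)
  intro P
  induction P with
  | nil => intro _ _; rfl
  | cons i l ih =>
    intro hn h
    rw [List.nodup_cons] at hn
    have h1 := ih hn.2 fun k hk => by
      rw [h k (List.mem_cons_of_mem _ hk)]
      have hne : 3 * k + 1 ≠ 3 * i + 1 := by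
        intro e
        have : k = i := by omega
        exact hn.1 (this ▸ hk)
      show (if 3 * k + 1 = 3 * i + 1 then _ else gL a b l (3 * k + 1)) = _
      rw [if_neg hne]
    have h2 : f (3 * i + 1) = List.replicate (b i) 0 ++ (3 * i + 1) ::
        List.replicate (hd a l) 0 := by
      rw [h i List.mem_cons_self]
      show (if 3 * i + 1 = 3 * i + 1 then _ else _) = _
      rw [if_pos rfl]
    have h3 : f (3 * i + 2) = [3 * i + 2] := hf _ (by omega)
    have e : ∀ u v : ℕ → ℕ, pA u v (i :: l) = (List.replicate (u i) 0 ++ (3 * i + 2) ::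
        (List.replicate (v i) 0 ++ [3 * i + 1])) ++ pA u v l := fun _ _ => rfl
    rw [e, e, ← h1]
    simp only [List.flatMap_append, List.flatMap_cons, fm_rep h0, h2, h3,
      rep_mul j (a i), rep_mul' j (b i), List.append_assoc, List.cons_append,
      List.nil_append, hd]

theorem right (a b : ℕ → ℕ) (f : ℕ → List ℕ) (hf : ∀ c, c % 3 ≠ 1 → f c = [c]) (j : ℕ) :
    ∀ (Q : List ℕ) (u : ℕ), Q.Nodup → (∀ i ∈ Q, f (3 * i + 1) = gR a b u Q (3 * i + 1)) →
      List.replicate (j * u) 0 ++ ((pC (fun i => j * a i) (fun i => j * b i) Q).flatMap f ++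
        List.replicate (qR b u Q) 0) =
        List.replicate ((j + 1) * u) 0 ++
          pC (fun i => (j + 1) * a i) (fun i => (j + 1) * b i) Q := by
  have h0 : f 0 = [0] := hf 0 (by norm_num)
  intro Q
  induction Q with
  | nil =>
    intro u _ _
    show List.replicate (j * u) 0 ++ ([] ++ List.replicate u 0) =
      List.replicate ((j + 1) * u) 0 ++ []
    rw [List.nil_append, List.append_nil, rep_mul']
  | cons i l ih =>
    intro u hn h
    rw [List.nodup_cons] at hn
    have h1 := ih (b i) hn.2 fun k hk => by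
      rw [h k (List.mem_cons_of_mem _ hk)]
      have hne : 3 * k + 1 ≠ 3 * i + 1 := by
        intro e
        have : k = i := by omega
        exact hn.1 (this ▸ hk)
      show (if 3 * k + 1 = 3 * i + 1 then _ else gR a b (b i) l (3 * k + 1)) = _
      rw [if_neg hne]
    have h2 : f (3 * i + 1) = List.replicate u 0 ++ (3 * i + 1) ::
        List.replicate (a i) 0 := by
      rw [h i List.mem_cons_self]
      show (if 3 * i + 1 = 3 * i + 1 then _ else _) = _
      rw [if_pos rfl]
    have h3 : f (3 * i + 2) = [3 * i + 2] := hf _ (by omega)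
    have e : ∀ u v : ℕ → ℕ, pC u v (i :: l) = ((3 * i + 1) :: (List.replicate (u i) 0 ++
        (3 * i + 2) :: List.replicate (v i) 0)) ++ pC u v l := fun _ _ => rfl
    have e2 : qR b u (i :: l) = qR b (b i) l := rfl
    rw [e, e, e2]
    simp only [List.flatMap_append, List.flatMap_cons, fm_rep h0, h2, h3,
      List.append_assoc, List.cons_append, List.nil_append, rep_mul' j u, rep_mul j (a i)]
    rw [h1]

theorem exf : ExfStmt := by
  intro a b P Q hn
  classical
  have hP : P.Nodup := (List.nodup_append.1 hn).1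
  have hQ : Q.Nodup := (List.nodup_append.1 hn).2.1
  have hPQ : ∀ i ∈ Q, i ∉ P := fun i hi hi' => (List.nodup_append.1 hn).2.2 i hi' i hi rfl
  let f : ℕ → List ℕ := fun c => if c / 3 ∈ P then gL a b P c else gR a b 0 Q c
  have hf : ∀ c, c % 3 ≠ 1 → f c = [c] := by
    intro c hc
    show (if c / 3 ∈ P then gL a b P c else gR a b 0 Q c) = [c]
    split_ifs
    · exact gL_ne a b P c hc
    · exact gR_ne a b Q c hc 0
  have hd3 : ∀ i : ℕ, (3 * i + 1) / 3 = i := fun i => by omega
  have hfP : ∀ i ∈ P, f (3 * i + 1) = gL a b P (3 * i + 1) := by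
    intro i hi
    show (if (3 * i + 1) / 3 ∈ P then _ else _) = _
    rw [hd3, if_pos hi]
  have hfQ : ∀ i ∈ Q, f (3 * i + 1) = gR a b 0 Q (3 * i + 1) := by
    intro i hi
    show (if (3 * i + 1) / 3 ∈ P then _ else _) = _
    rw [hd3, if_neg (hPQ i hi)]
  refine ⟨f, List.replicate (hd a P) 0, List.replicate (qR b 0 Q) 0, fun j M hM => ?_⟩
  have h1 := left a b f hf j P hP hfP
  have h2 := right a b f hf j Q 0 hQ hfQ
  rw [mul_zero, mul_zero, List.replicate_zero, List.nil_append, List.nil_append] at h2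
  unfold bb
  rw [List.flatMap_append, List.flatMap_append, fm_id hf M hM, ← h1, ← h2]
  simp only [List.append_assoc]

end Pool.Agent.MWI.H4
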